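import Pool.Agent.H25.DP.Targets

/-!
# Two dilations: the smoothed averages are small when `d < μ`
-/

set_option autoImplicit false

open Complex MeasureTheory Set

namespace Pool.Agent.H35.DP.AVB

open Pool.Agent.H25.DL Pool.Agent.H25.DP

/-! ### The three terms -/

lemma min_sq_mul {W T : ℝ} (hW : 0 < W) (hT : 0 < T) :
    (min W (Real.sqrt T)) ^ 2 * max (1 / W) (W / T) = W := by
  have hs : 0 < Real.sqrt T := Real.sqrt_pos.2 hT
  have hss : Real.sqrt T ^ 2 = T := Real.sq_sqrt hT.le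
  rcases le_total W (Real.sqrt T) with h | h
  · have h2 : W / T ≤ 1 / W := by
      rw [div_le_div_iff₀ hT hW]
      nlinarith
    rw [min_eq_left h, max_eq_left h2]
    field_simp
  · have h2 : 1 / W ≤ W / T := by
      rw [div_le_div_iff₀ hW hT]
      nlinarith
    rw [min_eq_right h, max_eq_right h2, hss]
    field_simp

lemma del_pos {W T : ℝ} (hW : 0 < W) : 0 < max (1 / W) (W / T) :=
  lt_of_lt_of_le (by positivity) (le_max_left _ _)

lemma del_le_one {W T : ℝ} (hW : 1 ≤ W) (hWT : W ≤ T) : max (1 / W) (W / T) ≤ 1 := by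
  have h1 : 0 < W := by linarith
  have h2 : 0 < T := by linarith
  refine max_le ?_ ?_
  · rw [div_le_one h1]; exact hW
  · rw [div_le_one h2]; exact hWT

lemma min_mul_sqrt {W T : ℝ} (hW : 0 < W) (hT : 0 < T) :
    min W (Real.sqrt T) * (max (1 / W) (W / T)) ^ (1 / 2 : ℝ) = W ^ (1 / 2 : ℝ) := by
  have hm : 0 ≤ min W (Real.sqrt T) := le_min hW.le (Real.sqrt_nonneg _)
  have hd := (del_pos (T := T) hW).le
  have h := min_sq_mul hW hT
  calc min W (Real.sqrt T) * (max (1 / W) (W / T)) ^ (1 / 2 : ℝ)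
      = ((min W (Real.sqrt T)) ^ 2) ^ (1 / 2 : ℝ) * (max (1 / W) (W / T)) ^ (1 / 2 : ℝ) := by
        congr 1
        rw [← Real.sqrt_eq_rpow, Real.sqrt_sq hm]
    _ = ((min W (Real.sqrt T)) ^ 2 * max (1 / W) (W / T)) ^ (1 / 2 : ℝ) := by
        rw [Real.mul_rpow (by positivity) hd]
    _ = W ^ (1 / 2 : ℝ) := by rw [h]

lemma min_mul_del {W T : ℝ} (hW : 0 < W) (hT : 0 < T) :
    min W (Real.sqrt T) * max (1 / W) (W / T) ≤ 1 + W * T ^ (-(1 / 2) : ℝ) := by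
  have hs : 0 < Real.sqrt T := Real.sqrt_pos.2 hT
  have h := min_sq_mul hW hT
  have hT2 : T ^ (-(1 / 2) : ℝ) = (Real.sqrt T)⁻¹ := by
    rw [Real.rpow_neg hT.le, Real.sqrt_eq_rpow]
  rw [hT2]
  rcases le_total W (Real.sqrt T) with h1 | h1
  · rw [min_eq_left h1] at h ⊢
    have h3 : W * (W * max (1 / W) (W / T)) = W * 1 := by linarith
    have h4 := mul_left_cancel₀ hW.ne' h3
    rw [h4]
    have : 0 ≤ W * (Real.sqrt T)⁻¹ := by positivity
    linarith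
  · rw [min_eq_right h1] at h ⊢
    have h3 : Real.sqrt T * max (1 / W) (W / T) = W * (Real.sqrt T)⁻¹ := by
      rw [eq_mul_inv_iff_mul_eq₀ hs.ne']
      linarith
    rw [h3]
    linarith

lemma term1 {T W S ε c1 : ℝ} (hT : 1 ≤ T) (hW : 0 < W) (hc : T ^ c1 ≤ S)
    (hc0 : 0 ≤ c1) (hε : ε ≤ 1 / 12) :
    S ^ (ε - 1 / 2) * min W (Real.sqrt T) * S ^ (1 / 3 : ℝ) ≤ W * T ^ (-(c1 / 12)) := by
  have hT0 : 0 < T := by linarith
  have hTc : 0 < T ^ c1 := by positivity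
  have hT1 : 1 ≤ T ^ c1 := Real.one_le_rpow hT hc0
  have hS1 : 1 ≤ S := hT1.trans hc
  have hS0 : 0 < S := by linarith
  calc S ^ (ε - 1 / 2) * min W (Real.sqrt T) * S ^ (1 / 3 : ℝ)
      = min W (Real.sqrt T) * (S ^ (ε - 1 / 2) * S ^ (1 / 3 : ℝ)) := by ring
    _ = min W (Real.sqrt T) * S ^ (ε - 1 / 2 + 1 / 3) := by rw [Real.rpow_add hS0]
    _ ≤ W * S ^ (-(1 / 12) : ℝ) := by
        gcongr
        · exact min_le_left _ _
        · linarith
    _ ≤ W * (T ^ c1) ^ (-(1 / 12) : ℝ) := by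
        gcongr W * ?_
        exact Real.rpow_le_rpow_of_nonpos hTc hc (by norm_num)
    _ = W * T ^ (-(c1 / 12)) := by
        rw [← Real.rpow_mul hT0.le]
        congr 2
        ring

lemma term2 {T W S ε p κ : ℝ} (hT : 1 ≤ T) (hS : 1 ≤ S) (hSp : S ≤ T ^ p) (hp : p ≤ 1)
    (hε : 0 ≤ ε) (hW : T ^ κ ≤ W) :
    S ^ (ε - 1 / 2) * min W (Real.sqrt T) * (S ^ (3 / 4 : ℝ) * (max (1 / W) (W / T)) ^ (1 / 2 : ℝ))
      ≤ W * T ^ (ε + p / 4 - κ / 2) := by
  have hT0 : 0 < T := by linarith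
  have hTk : 0 < T ^ κ := by positivity
  have hW0 : 0 < W := hTk.trans_le hW
  have hS0 : 0 < S := by linarith
  have e1 : ε - 1 / 2 + 3 / 4 = ε + 1 / 4 := by ring
  calc S ^ (ε - 1 / 2) * min W (Real.sqrt T) *
        (S ^ (3 / 4 : ℝ) * (max (1 / W) (W / T)) ^ (1 / 2 : ℝ))
      = (S ^ (ε - 1 / 2) * S ^ (3 / 4 : ℝ)) *
        (min W (Real.sqrt T) * (max (1 / W) (W / T)) ^ (1 / 2 : ℝ)) := by ring
    _ = S ^ (ε + 1 / 4) * W ^ (1 / 2 : ℝ) := by
        rw [min_mul_sqrt hW0 hT0, ← Real.rpow_add hS0, e1]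
    _ ≤ T ^ (ε + p / 4) * W ^ (1 / 2 : ℝ) := by
        gcongr
        calc S ^ (ε + 1 / 4) ≤ (T ^ p) ^ (ε + 1 / 4) :=
              Real.rpow_le_rpow hS0.le hSp (by linarith)
          _ = T ^ (p * (ε + 1 / 4)) := by rw [← Real.rpow_mul hT0.le]
          _ ≤ T ^ (ε + p / 4) := by
              refine Real.rpow_le_rpow_of_exponent_le hT ?_
              nlinarith
    _ = T ^ (ε + p / 4) * (W * W ^ (-(1 / 2) : ℝ)) := by
        congr 1
        rw [mul_comm W, ← Real.rpow_add_one hW0.ne']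
        norm_num
    _ ≤ T ^ (ε + p / 4) * (W * (T ^ κ) ^ (-(1 / 2) : ℝ)) := by
        gcongr T ^ (ε + p / 4) * (W * ?_)
        exact Real.rpow_le_rpow_of_nonpos hTk hW (by norm_num)
    _ = W * (T ^ (ε + p / 4) * (T ^ κ) ^ (-(1 / 2) : ℝ)) := by ring
    _ = W * T ^ (ε + p / 4 - κ / 2) := by
        rw [← Real.rpow_mul hT0.le, ← Real.rpow_add hT0]
        congr 2
        ring

lemma term3 {T W S ε p κ : ℝ} (hT : 1 ≤ T) (hS : 1 ≤ S) (hSp : S ≤ T ^ p) (hp : p ≤ 1)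
    (hε : 0 ≤ ε) (hW : T ^ κ ≤ W) :
    S ^ (ε - 1 / 2) * min W (Real.sqrt T) * (S * max (1 / W) (W / T))
      ≤ W * (T ^ (ε + p / 2 - κ) + T ^ (ε + p / 2 - 1 / 2)) := by
  have hT0 : 0 < T := by linarith
  have hTk : 0 < T ^ κ := by positivity
  have hW0 : 0 < W := hTk.trans_le hW
  have hS0 : 0 < S := by linarith
  have e1 : ε - 1 / 2 + 1 = ε + 1 / 2 := by ring
  calc S ^ (ε - 1 / 2) * min W (Real.sqrt T) * (S * max (1 / W) (W / T))
      = (S ^ (ε - 1 / 2) * S) * (min W (Real.sqrt T) * max (1 / W) (W / T)) := by ring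
    _ = S ^ (ε + 1 / 2) * (min W (Real.sqrt T) * max (1 / W) (W / T)) := by
        rw [← Real.rpow_add_one hS0.ne', e1]
    _ ≤ T ^ (ε + p / 2) * (1 + W * T ^ (-(1 / 2) : ℝ)) := by
        have h1 : S ^ (ε + 1 / 2) ≤ T ^ (ε + p / 2) := by
          calc S ^ (ε + 1 / 2) ≤ (T ^ p) ^ (ε + 1 / 2) :=
                Real.rpow_le_rpow hS0.le hSp (by linarith)
            _ = T ^ (p * (ε + 1 / 2)) := by rw [← Real.rpow_mul hT0.le]
            _ ≤ T ^ (ε + p / 2) := by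
                refine Real.rpow_le_rpow_of_exponent_le hT ?_
                nlinarith
        have h2 := min_mul_del hW0 hT0
        have h3 : 0 ≤ min W (Real.sqrt T) * max (1 / W) (W / T) :=
          mul_nonneg (le_min hW0.le (Real.sqrt_nonneg _)) (del_pos hW0).le
        gcongr
    _ ≤ T ^ (ε + p / 2) * (W * T ^ (-κ) + W * T ^ (-(1 / 2) : ℝ)) := by
        gcongr
        rw [Real.rpow_neg hT0.le, ← div_eq_mul_inv, one_le_div hTk]
        exact hW
    _ = W * (T ^ (ε + p / 2) * T ^ (-κ) + T ^ (ε + p / 2) * T ^ (-(1 / 2) : ℝ)) := by ring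
    _ = W * (T ^ (ε + p / 2 - κ) + T ^ (ε + p / 2 - 1 / 2)) := by
        rw [← Real.rpow_add hT0, ← Real.rpow_add hT0]
        rfl

lemma third {T W S ε p κ c : ℝ} (hT : 1 ≤ T) (hS : 1 ≤ S) (hSp : S ≤ T ^ p) (hp : p ≤ 1)
    (hε : 0 ≤ ε) (hW : T ^ κ ≤ W) (h1 : ε + c ≤ κ - p / 2) (h2 : ε + c ≤ (1 - p) / 2) :
    S ^ (ε - 1 / 2) * min W (Real.sqrt T) * (S * max (1 / W) (W / T)) ≤ 2 * (W * T ^ (-c)) := by
  have hT0 : 0 < T := by linarith
  have hTk : 0 < T ^ κ := by positivity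
  have hW0 : 0 < W := hTk.trans_le hW
  refine (term3 hT hS hSp hp hε hW).trans ?_
  have h3 : T ^ (ε + p / 2 - κ) ≤ T ^ (-c) := Real.rpow_le_rpow_of_exponent_le hT (by linarith)
  have h4 : T ^ (ε + p / 2 - 1 / 2) ≤ T ^ (-c) :=
    Real.rpow_le_rpow_of_exponent_le hT (by linarith)
  have h5 := mul_le_mul_of_nonneg_left (add_le_add h3 h4) hW0.le
  linarith

lemma allthree {T W S ε p κ c c1 : ℝ} (hT : 1 ≤ T) (hS : T ^ c1 ≤ S) (hSp : S ≤ T ^ p)
    (hp : p ≤ 1) (hε : 0 ≤ ε) (hε1 : ε ≤ 1 / 12) (hW : T ^ κ ≤ W) (hc1 : 0 ≤ c1)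
    (h0 : c ≤ c1 / 12) (h1 : ε + c ≤ (κ - p / 2) / 2) (h2 : ε + c ≤ (1 - p) / 2)
    (h3 : p / 2 ≤ κ) :
    S ^ (ε - 1 / 2) * min W (Real.sqrt T) * (S ^ (1 / 3 : ℝ) +
      S ^ (3 / 4 : ℝ) * (max (1 / W) (W / T)) ^ (1 / 2 : ℝ) + S * max (1 / W) (W / T)) ≤
      4 * (W * T ^ (-c)) := by
  have hT0 : 0 < T := by linarith
  have hTk : 0 < T ^ κ := by positivity
  have hW0 : 0 < W := hTk.trans_le hW
  have hS1 : 1 ≤ S := (Real.one_le_rpow hT hc1).trans hS
  have g1 := term1 hT hW0 hS hc1 hε1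
  have g2 := term2 hT hS1 hSp hp hε hW
  have g3 := third hT hS1 hSp hp hε hW (c := c) (by linarith) h2
  have g4 : W * T ^ (-(c1 / 12)) ≤ W * T ^ (-c) :=
    mul_le_mul_of_nonneg_left (Real.rpow_le_rpow_of_exponent_le hT (by linarith)) hW0.le
  have g5 : W * T ^ (ε + p / 4 - κ / 2) ≤ W * T ^ (-c) :=
    mul_le_mul_of_nonneg_left (Real.rpow_le_rpow_of_exponent_le hT (by linarith)) hW0.le
  calc _ = S ^ (ε - 1 / 2) * min W (Real.sqrt T) * S ^ (1 / 3 : ℝ) +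
        S ^ (ε - 1 / 2) * min W (Real.sqrt T) *
          (S ^ (3 / 4 : ℝ) * (max (1 / W) (W / T)) ^ (1 / 2 : ℝ)) +
        S ^ (ε - 1 / 2) * min W (Real.sqrt T) * (S * max (1 / W) (W / T)) := by ring
    _ ≤ 4 * (W * T ^ (-c)) := by linarith

lemma small_sq {δ x : ℝ} (h0 : 0 < δ) (h1 : δ ≤ 1) (hx : 1 ≤ |x|) :
    (δ / (δ + |x|)) ^ 2 ≤ δ := by
  have h2 : δ / (δ + |x|) ≤ δ := by
    rw [div_le_iff₀ (by linarith)]
    nlinarith
  have h3 : 0 ≤ δ / (δ + |x|) := by positivity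
  nlinarith

lemma sum_small (K N M : ℕ) (g : ℕ → ℕ → ℝ) {δ : ℝ} (h0 : 0 < δ) (h1 : δ ≤ 1)
    (hg : ∀ n ∈ Finset.Ico N (K * N), ∀ m ∈ Finset.Ico M (K * M), 1 ≤ |g n m|) :
    ∑ n ∈ Finset.Ico N (K * N), ∑ m ∈ Finset.Ico M (K * M), (δ / (δ + |g n m|)) ^ 2 ≤
      (K : ℝ) ^ 2 * ((N : ℝ) * M * δ) := by
  have h2 : ∀ P : ℕ, ((Finset.Ico P (K * P)).card : ℝ) ≤ K * P := by
    intro P
    rw [Nat.card_Ico]
    have : K * P - P ≤ K * P := Nat.sub_le _ _
    exact_mod_cast this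
  calc ∑ n ∈ Finset.Ico N (K * N), ∑ m ∈ Finset.Ico M (K * M), (δ / (δ + |g n m|)) ^ 2
      ≤ ∑ n ∈ Finset.Ico N (K * N), ∑ m ∈ Finset.Ico M (K * M), δ :=
        Finset.sum_le_sum fun n hn => Finset.sum_le_sum fun m hm => small_sq h0 h1 (hg n hn m hm)
    _ = ((Finset.Ico N (K * N)).card : ℝ) * (((Finset.Ico M (K * M)).card : ℝ) * δ) := by
        simp only [Finset.sum_const, nsmul_eq_mul]
    _ ≤ ((K : ℝ) * N) * (((K : ℝ) * M) * δ) := by
        gcongr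
        · exact h2 N
        · exact h2 M
    _ = (K : ℝ) ^ 2 * ((N : ℝ) * M * δ) := by ring

/-- the values of `a log n + b log m` when `N M` is small -/
lemma log_le {a b A : ℝ} (ha : 0 < a) (hb : 0 < b) (haA : a ≤ A) (hbA : b ≤ A) {K N M : ℕ}
    (hK : 1 ≤ K) (hN : 1 ≤ N) (hM : 1 ≤ M) {n m : ℕ} (hn : n ∈ Finset.Ico N (K * N))
    (hm : m ∈ Finset.Ico M (K * M)) :
    a * Real.log n + b * Real.log m ≤ A * (2 * Real.log K + Real.log ((N : ℝ) * M)) := by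
  have hK0 : (1 : ℝ) ≤ K := by exact_mod_cast hK
  have hA : 0 < A := by linarith
  have key : ∀ {r : ℝ} {P q : ℕ}, 0 < r → r ≤ A → 1 ≤ P → q ∈ Finset.Ico P (K * P) →
      r * Real.log q ≤ A * (Real.log K + Real.log P) := by
    intro r P q hr hrA hP hq
    rw [Finset.mem_Ico] at hq
    have hP0 : (1 : ℝ) ≤ P := by exact_mod_cast hP
    have hq0 : (1 : ℝ) ≤ q := by exact_mod_cast hP.trans hq.1
    have hq1 : (q : ℝ) ≤ K * P := by exact_mod_cast hq.2.le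
    have h1 : Real.log q ≤ Real.log K + Real.log P := by
      rw [← Real.log_mul (by positivity) (by positivity)]
      exact Real.log_le_log (by linarith) hq1
    have h2 : 0 ≤ Real.log q := Real.log_nonneg hq0
    calc r * Real.log q ≤ A * Real.log q := by gcongr
      _ ≤ A * (Real.log K + Real.log P) := by gcongr
  have h1 := key ha haA hN hn
  have h2 := key hb hbA hM hm
  have hN0 : (N : ℝ) ≠ 0 := by positivity
  have hM0 : (M : ℝ) ≠ 0 := by positivity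
  rw [Real.log_mul hN0 hM0]
  linarith

/-- extending the range of summation by zero -/
lemma extend_sum {K₁ K N : ℕ} (hK : K₁ ≤ K) (c : ℕ → ℂ) (e : ℕ → ℂ) :
    ∑ n ∈ Finset.Ico N (K₁ * N), c n * e n =
      ∑ n ∈ Finset.Ico N (K * N), (if n < K₁ * N then c n else 0) * e n := by
  have h1 : Finset.Ico N (K₁ * N) ⊆ Finset.Ico N (K * N) :=
    Finset.Ico_subset_Ico le_rfl (Nat.mul_le_mul_right _ hK)
  rw [← Finset.sum_subset h1]
  · refine Finset.sum_congr rfl fun n hn => ?_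
    rw [if_pos (Finset.mem_Ico.1 hn).2]
  · intro n hn hn2
    rw [Finset.mem_Ico] at hn hn2
    rw [if_neg (fun h => hn2 ⟨hn.1, h⟩), zero_mul]

/-- the bound for one average, for `T` large -/
lemma one_average (h1 : T_IOC) (h2 : T_SB) (h3 : T_PX) (h4 : T_XP) (ι : Type) [Fintype ι]
    (f : ι → Fac) (Y : ℂ → ℂ) (d t₀ a b μ κ D : ℝ) (hY : Phase Y d t₀) (hd : 0 < d)
    (hμa : μ ≤ a) (hμb : μ ≤ b) (hμ : 0 < μ) (hr : ∀ l, (f l).r = a ∨ (f l).r = b)
    (hD : 0 < D) (hD1 : D < μ) (hD2 : D < 2 * μ * κ) :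
    ∃ c C T₀ : ℝ, 0 < c ∧ 0 < C ∧ ∀ T : ℝ, T₀ ≤ T → ∀ H W : ℝ, T ≤ H → H + W ≤ 2 * T →
      T ^ κ ≤ W → ∀ y : ℝ, |y| ≤ Real.log T → ∀ j ∈ mains f μ D T,
      ‖AV f Y j H W y‖ ≤ C * (W * T ^ (-c)) := by
  classical
  obtain ⟨κY, B, η, C₀, hκY, hY1⟩ := hY.main
  have ha : 0 < a := by linarith
  have hb : 0 < b := by linarith
  set A : ℝ := max a b with hA
  have haA : a ≤ A := le_max_left _ _
  have hbA : b ≤ A := le_max_right _ _
  have hA0 : 0 < A := by linarith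
  set p : ℝ := D / μ with hp
  have hp1 : p < 1 := (div_lt_one hμ).2 hD1
  have hp0 : 0 < p := by positivity
  have hp2 : p / 2 < κ := by
    have : p < 2 * κ := by
      rw [hp, div_lt_iff₀ hμ]
      linarith
    linarith
  set c1 : ℝ := d / (2 * A) with hc1
  have hc10 : 0 < c1 := by positivity
  set ε : ℝ := min (1 / 12) (min ((κ - p / 2) / 4) ((1 - p) / 4)) with hε
  have hε0 : 0 < ε := by
    refine lt_min (by norm_num) (lt_min ?_ ?_) <;> linarith
  have hε1 : ε ≤ 1 / 12 := min_le_left _ _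
  have hε2 : ε ≤ (κ - p / 2) / 4 := (min_le_right _ _).trans (min_le_left _ _)
  have hε3 : ε ≤ (1 - p) / 4 := (min_le_right _ _).trans (min_le_right _ _)
  set c : ℝ := min (c1 / 12) (min ((κ - p / 2) / 4) ((1 - p) / 4)) with hc
  have hc0 : 0 < c := by
    refine lt_min (by positivity) (lt_min ?_ ?_) <;> linarith
  have hc2 : c ≤ c1 / 12 := min_le_left _ _
  have hc3 : c ≤ (κ - p / 2) / 4 := (min_le_right _ _).trans (min_le_left _ _)
  have hc4 : c ≤ (1 - p) / 4 := (min_le_right _ _).trans (min_le_right _ _)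
  -- the two classes
  let P : ι → Prop := fun l => (f l).r = a
  obtain ⟨C₁, hC₁, hX1⟩ := h3 {l // P l} (fun l => f l) a ε (fun l => l.2) hε0
  obtain ⟨C₂, hC₂, hX2⟩ := h3 {l // ¬P l} (fun l => f l) b ε
    (fun l => (hr l).resolve_left l.2) hε0
  set K₁ : ℕ := 2 ^ (Fintype.card {l // P l} + 1) with hK₁
  set K₂ : ℕ := 2 ^ (Fintype.card {l // ¬P l} + 1) with hK₂
  set K : ℕ := max K₁ K₂ with hK
  have hK1 : 1 ≤ K := le_trans (Nat.one_le_two_pow) (le_max_left K₁ K₂)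
  obtain ⟨C₃, T₃, hC₃, hXP⟩ := h4 ι f Y d B η t₀ C₀ κY hY.diff hY1
  obtain ⟨C₄, T₄, hC₄, hIO⟩ := h1 d B η hd
  obtain ⟨C₅, hC₅, hSB⟩ := h2 a b K ha hb
  -- logarithmic thresholds
  have hlog : ∀ᶠ T : ℝ in Filter.atTop, 1 + 2 * A * Real.log K - d - B ≤ d / 2 * Real.log T := by
    have : Filter.Tendsto (fun T : ℝ => d / 2 * Real.log T) Filter.atTop Filter.atTop :=
      Real.tendsto_log_atTop.const_mul_atTop (by positivity)
    exact this.eventually_ge_atTop _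
  have hκ0 : 0 < κ := by linarith
  have hpow : ∀ᶠ T : ℝ in Filter.atTop, Real.log T ≤ T ^ κ := by
    have h5 := (isLittleO_log_rpow_atTop hκ0).bound one_pos
    filter_upwards [h5, Filter.eventually_ge_atTop 1] with T hT hT1
    rw [one_mul, Real.norm_of_nonneg (Real.log_nonneg hT1),
      Real.norm_of_nonneg (by positivity)] at hT
    exact hT
  obtain ⟨T₅, hT₅⟩ := Filter.eventually_atTop.1 (hlog.and hpow)
  refine ⟨c, C₃ + C₁ * C₂ * C₄ * (4 * C₅ + 2 * (K : ℝ) ^ 2), max (max T₃ T₄) (max T₅ 1), hc0,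
    by positivity, ?_⟩
  intro T hT H W hH hHW hW y hy j hj
  have hT3 : T₃ ≤ T := (le_max_left _ _).trans ((le_max_left _ _).trans hT)
  have hT4 : T₄ ≤ T := (le_max_right _ _).trans ((le_max_left _ _).trans hT)
  have hT5 : T₅ ≤ T := (le_max_left _ _).trans ((le_max_right _ _).trans hT)
  have hT1 : 1 ≤ T := (le_max_right _ _).trans ((le_max_right _ _).trans hT)
  have hT0 : 0 < T := by linarith
  obtain ⟨hl1, hl2⟩ := hT₅ T hT5
  have hTk1 : 1 ≤ T ^ κ := Real.one_le_rpow hT1 hκ0.le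
  have hW1 : 1 ≤ W := hTk1.trans hW
  have hW0 : 0 < W := by linarith
  have hWT : W ≤ T := by linarith
  have hlW : Real.log T ≤ W := hl2.trans hW
  have hrμ : ∀ l, μ ≤ (f l).r := by
    intro l
    rcases hr l with h | h
    · rw [h]; exact hμa
    · rw [h]; exact hμb
  -- the two Dirichlet polynomials
  obtain ⟨x, hx, hxs⟩ := hX1 (fun l => j l)
  obtain ⟨z, hz, hzs⟩ := hX2 (fun l => j l)
  set N : ℕ := SZ (fun l : {l // P l} => j l) with hN
  set M : ℕ := SZ (fun l : {l // ¬P l} => j l) with hM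
  have hN1 : 1 ≤ N := SZ_pos _
  have hM1 : 1 ≤ M := SZ_pos _
  have hN0 : (0 : ℝ) < N := by exact_mod_cast hN1
  have hM0 : (0 : ℝ) < M := by exact_mod_cast hM1
  have hNM : SZ j = N * M := SZ_split P j
  set S : ℝ := (N : ℝ) * M with hS
  have hSS : (SZ j : ℝ) = S := by rw [hNM]; push_cast; rfl
  have hS1 : 1 ≤ S := by
    have := SZ_pos j
    rw [← hSS]
    exact_mod_cast this
  have hS0 : 0 < S := by linarith
  have hSp : S ≤ T ^ p := by
    rw [← hSS]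
    exact SZ_le_of_mem hμ hT1 hrμ hj
  have hx' : ∀ n, ‖(if n < K₁ * N then x n else 0 : ℂ)‖ ≤ C₁ * (N : ℝ) ^ (ε - 1 / 2) := by
    intro n
    split_ifs
    · exact hx n
    · rw [norm_zero]; positivity
  have hz' : ∀ m, ‖(if m < K₂ * M then z m else 0 : ℂ)‖ ≤ C₂ * (M : ℝ) ^ (ε - 1 / 2) := by
    intro n
    split_ifs
    · exact hz n
    · rw [norm_zero]; positivity
  have hprod : ∀ t : ℝ, Pj f j (1 / 2 + t * I) =
      (∑ n ∈ Finset.Ico N (K * N), (if n < K₁ * N then x n else 0 : ℂ) * en n (a * t)) *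
        ∑ m ∈ Finset.Ico M (K * M), (if m < K₂ * M then z m else 0 : ℂ) * en m (b * t) := by
    intro t
    rw [Pj_split f P j, ← extend_sum (le_max_left K₁ K₂) x (fun n => en n (a * t)),
      ← extend_sum (le_max_right K₁ K₂) z (fun m => en m (b * t)), ← hxs t, ← hzs t]
  have hav := hXP T hT3 j N M K a b (fun n => if n < K₁ * N then x n else 0)
    (fun m => if m < K₂ * M then z m else 0) hN1 hM1 hprod H W y hH hW0 hHW hy
  set δ : ℝ := max (1 / W) (W / T) with hδ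
  have hδ0 : 0 < δ := del_pos hW0
  have hδ1 : δ ≤ 1 := del_le_one hW1 hWT
  set M' : ℝ := min W (Real.sqrt T) with hM'
  have hM'0 : 0 ≤ M' := le_min hW0.le (Real.sqrt_nonneg _)
  set L0 : ℝ := d * Real.log H + d + B with hL0
  set U₀ : ℝ := ∑ n ∈ Finset.Ico N (K * N), ∑ m ∈ Finset.Ico M (K * M),
      (δ / (δ + |L0 - (a * Real.log n + b * Real.log m)|)) ^ 2 with hU
  have hmain : ‖κY * ∑ n ∈ Finset.Ico N (K * N), ∑ m ∈ Finset.Ico M (K * M),
      (if n < K₁ * N then x n else 0 : ℂ) * (if m < K₂ * M then z m else 0 : ℂ) *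
        IO d B η H W y (a * Real.log n + b * Real.log m)‖ ≤
      C₁ * C₂ * C₄ * (S ^ (ε - 1 / 2) * M' * U₀) := by
    rw [norm_mul, hκY, one_mul]
    refine (norm_sum_le _ _).trans ?_
    rw [hU, Finset.mul_sum, Finset.mul_sum]
    refine Finset.sum_le_sum fun n _ => ?_
    refine (norm_sum_le _ _).trans ?_
    rw [Finset.mul_sum, Finset.mul_sum]
    refine Finset.sum_le_sum fun m _ => ?_
    rw [norm_mul, norm_mul]
    have hI := hIO T hT4 H W y (a * Real.log n + b * Real.log m) hH hlW hHW hy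
    calc _ ≤ (C₁ * (N : ℝ) ^ (ε - 1 / 2)) * (C₂ * (M : ℝ) ^ (ε - 1 / 2)) *
          (C₄ * M' * (δ / (δ + |L0 - (a * Real.log n + b * Real.log m)|)) ^ 2) := by
          gcongr
          · exact hx' n
          · exact hz' m
      _ = C₁ * C₂ * C₄ * (((N : ℝ) ^ (ε - 1 / 2) * (M : ℝ) ^ (ε - 1 / 2)) * M' *
          (δ / (δ + |L0 - (a * Real.log n + b * Real.log m)|)) ^ 2) := by ring
      _ = _ := by rw [← Real.mul_rpow hN0.le hM0.le]
  -- the sum over all pairs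
  have hWT0 : 0 ≤ W * T ^ (-c) := by positivity
  have hE : S ^ (ε - 1 / 2) * M' * U₀ ≤ (4 * C₅ + 2 * (K : ℝ) ^ 2) * (W * T ^ (-c)) := by
    rcases le_or_gt (T ^ c1) S with hcase | hcase
    · have g1 := hSB N M L0 δ hN1 hM1 hδ0 hδ1
      have g2 := allthree hT1 hcase hSp hp1.le hε0.le hε1 hW hc10.le hc2 (by linarith)
        (by linarith) hp2.le
      calc S ^ (ε - 1 / 2) * M' * U₀ ≤ S ^ (ε - 1 / 2) * M' * (C₅ * (S ^ (1 / 3 : ℝ) +
            S ^ (3 / 4 : ℝ) * δ ^ (1 / 2 : ℝ) + S * δ)) := by gcongr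
        _ = C₅ * (S ^ (ε - 1 / 2) * M' * (S ^ (1 / 3 : ℝ) +
            S ^ (3 / 4 : ℝ) * δ ^ (1 / 2 : ℝ) + S * δ)) := by ring
        _ ≤ C₅ * (4 * (W * T ^ (-c))) := by gcongr
        _ ≤ _ := by linarith [mul_nonneg (sq_nonneg (K : ℝ)) hWT0]
    · have hlS : Real.log S ≤ c1 * Real.log T := by
        rw [← Real.log_rpow hT0]
        exact Real.log_le_log hS0 hcase.le
      have hlH : Real.log T ≤ Real.log H := Real.log_le_log hT0 hH
      have g1 : U₀ ≤ (K : ℝ) ^ 2 * (S * δ) := by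
        refine sum_small K N M (fun n m => L0 - (a * Real.log n + b * Real.log m)) hδ0 hδ1 ?_
        intro n hn m hm
        have g2 := log_le ha hb haA hbA hK1 hN1 hM1 hn hm
        refine le_trans ?_ (le_abs_self _)
        have g3 : A * Real.log S ≤ d / 2 * Real.log T := by
          calc A * Real.log S ≤ A * (c1 * Real.log T) := by gcongr
            _ = d / 2 * Real.log T := by rw [hc1]; field_simp
        have g4 : d * Real.log T ≤ d * Real.log H := by gcongr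
        rw [← hS] at g2
        simp only [hL0]
        linarith
      have g5 := third hT1 hS1 hSp hp1.le hε0.le hW (c := c) (by linarith) (by linarith)
      calc S ^ (ε - 1 / 2) * M' * U₀ ≤ S ^ (ε - 1 / 2) * M' * ((K : ℝ) ^ 2 * (S * δ)) := by gcongr
        _ = (K : ℝ) ^ 2 * (S ^ (ε - 1 / 2) * M' * (S * δ)) := by ring
        _ ≤ (K : ℝ) ^ 2 * (2 * (W * T ^ (-c))) := by gcongr
        _ ≤ _ := by linarith [mul_nonneg hC₅.le hWT0]
  -- the error term
  have herr : W / T * Real.sqrt (SZ j) ≤ W * T ^ (-c) := by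
    rw [hSS, Real.sqrt_eq_rpow, div_eq_mul_inv, mul_assoc]
    gcongr W * ?_
    calc T⁻¹ * S ^ (1 / 2 : ℝ) ≤ T⁻¹ * (T ^ p) ^ (1 / 2 : ℝ) := by gcongr
      _ = T ^ (-1 + p * (1 / 2)) := by
          rw [← Real.rpow_mul hT0.le, Real.rpow_add hT0, Real.rpow_neg_one]
      _ ≤ T ^ (-c) := Real.rpow_le_rpow_of_exponent_le hT1 (by linarith)
  calc ‖AV f Y j H W y‖ = ‖(AV f Y j H W y - κY * ∑ n ∈ Finset.Ico N (K * N),
        ∑ m ∈ Finset.Ico M (K * M), (if n < K₁ * N then x n else 0 : ℂ) *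
          (if m < K₂ * M then z m else 0 : ℂ) *
          IO d B η H W y (a * Real.log n + b * Real.log m)) +
        κY * ∑ n ∈ Finset.Ico N (K * N),
        ∑ m ∈ Finset.Ico M (K * M), (if n < K₁ * N then x n else 0 : ℂ) *
          (if m < K₂ * M then z m else 0 : ℂ) *
          IO d B η H W y (a * Real.log n + b * Real.log m)‖ := by rw [sub_add_cancel]
    _ ≤ C₃ * (W / T) * Real.sqrt (SZ j) + C₁ * C₂ * C₄ * (S ^ (ε - 1 / 2) * M' * U₀) :=
        (norm_add_le _ _).trans (add_le_add hav hmain)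
    _ ≤ C₃ * (W * T ^ (-c)) + C₁ * C₂ * C₄ * ((4 * C₅ + 2 * (K : ℝ) ^ 2) * (W * T ^ (-c))) := by
        rw [mul_assoc C₃]
        gcongr
    _ = _ := by ring

theorem avb (h1 : T_IOC) (h2 : T_SB) (h3 : T_PX) (h4 : T_XP) (h5 : Pool.Agent.H25.DL.T_CN) :
    T_AVB := by
  intro ι _ f Y d t₀ a b μ κ w hY hd hdμ hμa hμb hr hκ hκ1 hW
  have hμ : 0 < μ := hd.trans hdμ
  have hrμ : ∀ l, μ ≤ (f l).r := by
    intro l
    rcases hr l with h | h
    · rw [h]; exact hμa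
    · rw [h]; exact hμb
  have hdκ : d < 2 * μ * κ := by
    rw [div_lt_iff₀ (by positivity)] at hκ
    linarith
  refine ⟨min μ (2 * μ * κ), lt_min hdμ hdκ, fun D hD1 hD2 => ?_⟩
  have hD0 : 0 < D := hd.trans hD1
  obtain ⟨c, C, T₀, hc, hC, hone⟩ := one_average h1 h2 h3 h4 ι f Y d t₀ a b μ κ D hY hd hμa hμb hμ
    hr hD0 (hD2.trans_le (min_le_left _ _)) (hD2.trans_le (min_le_right _ _))
  obtain ⟨C₆, hC₆, hcn⟩ := h5 ι f μ D hD0 hμ hrμ
  have hev : ∀ᶠ T : ℝ in Filter.atTop, C₆ * Real.log T ^ C₆ * (C * T ^ (-c)) ≤ 1 / 100 := by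
    have h6 := (isLittleO_log_rpow_rpow_atTop C₆ hc).bound
      (c := 1 / (100 * (C₆ * C))) (by positivity)
    filter_upwards [h6, Filter.eventually_ge_atTop 1] with T hT hT1
    have hT0 : 0 < T := by linarith
    have hl := Real.log_nonneg hT1
    rw [Real.norm_of_nonneg (by positivity), Real.norm_of_nonneg (by positivity)] at hT
    have hTc : 0 < T ^ c := by positivity
    have hTT : T ^ c * T ^ (-c) = 1 := by
      rw [← Real.rpow_add hT0]
      simp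
    calc C₆ * Real.log T ^ C₆ * (C * T ^ (-c))
        ≤ C₆ * (1 / (100 * (C₆ * C)) * T ^ c) * (C * T ^ (-c)) := by gcongr
      _ = (C₆ * C / (100 * (C₆ * C))) * (T ^ c * T ^ (-c)) := by ring
      _ = 1 / 100 := by
          rw [hTT, mul_one]
          field_simp
  obtain ⟨T₁, hT₁⟩ := Filter.eventually_atTop.1 hev
  refine ⟨max (max T₀ T₁) 3, fun T hT H W hw y hy => ?_⟩
  have hT0 : T₀ ≤ T := (le_max_left _ _).trans ((le_max_left _ _).trans hT)
  have hT1 : T₁ ≤ T := (le_max_right _ _).trans ((le_max_left _ _).trans hT)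
  have hT3 : 3 ≤ T := (le_max_right _ _).trans hT
  obtain ⟨hH, hHW, hWk⟩ := hW T H W hw
  have hTpos : 0 < T := by linarith
  have hW0 : 0 < W := lt_of_lt_of_le (by positivity) hWk
  have hcard := (hcn T hT3).1
  calc ‖∑ j ∈ mains f μ D T, AV f Y j H W y‖ ≤ ∑ j ∈ mains f μ D T, ‖AV f Y j H W y‖ :=
        norm_sum_le _ _
    _ ≤ ∑ j ∈ mains f μ D T, C * (W * T ^ (-c)) :=
        Finset.sum_le_sum fun j hj => hone T hT0 H W hH hHW hWk y hy j hj
    _ = ((mains f μ D T).card : ℝ) * (C * (W * T ^ (-c))) := by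
        rw [Finset.sum_const, nsmul_eq_mul]
    _ ≤ (C₆ * Real.log T ^ C₆) * (C * (W * T ^ (-c))) := by gcongr
    _ = W * (C₆ * Real.log T ^ C₆ * (C * T ^ (-c))) := by ring
    _ ≤ W * (1 / 100) := by
        gcongr
        exact hT₁ T hT1
    _ = W / 100 := by ring

end Pool.Agent.H35.DP.AVB
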